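import Pool.Agent.Helper2.PG.Bound

/-!
Project CY (MP_b8862a_ag), block CY3: the Euclidean part, beginning.
-/

set_option linter.unusedSectionVars false

open Module PF PG

namespace CY

variable {E : Type*} [NormedAddCommGroup E] [InnerProductSpace ℝ E] {Φ X : Finset E} {ℓ : E →+ ℝ} {lam : E}

/-- The roots with the levels `1, 0, -1` and the weights with the levels `3/2, 1/2, -1/2, -3/2` of a module of
Calabi-Yau type. -/
structure Cfg (Φ X : Finset E) (ℓ : E →+ ℝ) (lam : E) : Prop where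
  lev : Lev Φ ℓ
  sat : Sat Φ X
  lam_mem : lam ∈ X
  lam_lev : ℓ lam = 3 / 2
  levX : ∀ x ∈ X, ℓ x = 3 / 2 ∨ ℓ x = 1 / 2 ∨ ℓ x = -(1 / 2) ∨ ℓ x = -(3 / 2)
  top : ∀ x ∈ X, ℓ x = 3 / 2 → x = lam
  half : ∀ x ∈ X, ℓ x = 1 / 2 → ∃ b ∈ Φ, ℓ b = 1 ∧ x = lam - b
  next : ∀ b ∈ Φ, ℓ b = 1 → ∃ b' ∈ Φ, ℓ b' = 1 ∧ lam - b - b' ∈ X

theorem co_mul_self {a x : E} (ha : (0 : ℝ) < inner ℝ a a) : co a x * inner ℝ a a = (2 * inner ℝ x a : ℝ) := by
  unfold co
  field_simp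

theorem lev_smul (ℓ : E →+ ℝ) (k : ℤ) (a : E) : ℓ ((k : ℝ) • a) = k * ℓ a := by
  rw [Int.cast_smul_eq_zsmul, map_zsmul, zsmul_eq_mul]

variable (h : Cfg Φ X ℓ lam)

include h

theorem Cfg.le (x : E) (hx : x ∈ X) : ℓ x ≤ 3 / 2 := by
  rcases h.levX x hx with h1 | h1 | h1 | h1 <;> rw [h1] <;> norm_num

theorem Cfg.ge (x : E) (hx : x ∈ X) : -(3 / 2) ≤ ℓ x := by
  rcases h.levX x hx with h1 | h1 | h1 | h1 <;> rw [h1] <;> norm_num

theorem Cfg.orth {a : E} (ha : a ∈ Φ) (ha0 : ℓ a = 0) : (inner ℝ lam a : ℝ) = 0 := by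
  obtain ⟨k, hk⟩ := h.sat.int a ha lam h.lam_mem
  have h1 := sat_refl h.lev.toRS h.sat ha h.lam_mem
  have h2 := h.top _ h1 (by rw [hk, map_sub, lev_smul, ha0, mul_zero, sub_zero, h.lam_lev])
  have h3 : co a lam • a = 0 := by
    have h4 : lam - co a lam • a = lam - 0 := by rw [h2, sub_zero]
    exact sub_right_injective h4
  rcases smul_eq_zero.1 h3 with h4 | h4
  · have h5 := co_mul_self (x := lam) (h.lev.toRS.inner_pos ha)
    rw [h4, zero_mul] at h5
    linarith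
  · exact absurd h4 (h.lev.ne_zero a ha)

theorem Cfg.const {a b : E} (ha : a ∈ Φ) (ha1 : ℓ a = 1) (hb : b ∈ Φ) (hb1 : ℓ b = 1) :
    (inner ℝ lam a : ℝ) = inner ℝ lam b := by
  have h1 := h.lev.congr ha ha1 hb hb1
  have h2 : ∀ z ∈ Z0 Φ ℓ, (inner ℝ lam z : ℝ) = 0 := by
    intro z hz
    unfold Z0 at hz
    induction hz using AddSubgroup.closure_induction with
    | mem c hc => exact h.orth hc.1 hc.2
    | zero => rw [inner_zero_right]
    | add a b _ _ ha hb => rw [inner_add_right, ha, hb, add_zero]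
    | neg a _ ha => rw [inner_neg_right, ha, neg_zero]
  have h3 := h2 _ h1
  rw [inner_sub_right] at h3
  linarith

/-- The constant. -/
theorem Cfg.exists_c : ∃ c : ℝ, 0 < c ∧ ∀ b ∈ Φ, ℓ b = 1 → (inner ℝ lam b : ℝ) = c := by
  obtain ⟨b0, hb0, hb01⟩ := h.lev.ex
  refine ⟨inner ℝ lam b0, ?_, fun b hb hb1 => h.const hb hb1 hb0 hb01⟩
  obtain ⟨k, hk⟩ := h.sat.int b0 hb0 lam h.lam_mem
  have h1 := sat_refl h.lev.toRS h.sat hb0 h.lam_mem
  have h2 := h.le _ h1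
  rw [hk, map_sub, lev_smul, hb01, h.lam_lev] at h2
  have h3 : (0 : ℝ) ≤ k := by linarith
  have h4 := co_mul_self (x := lam) (h.lev.toRS.inner_pos hb0)
  have h5 := h.lev.toRS.inner_pos hb0
  rw [hk] at h4
  have h6 : (0 : ℝ) ≤ inner ℝ lam b0 := by
    have : (0 : ℝ) ≤ k * inner ℝ b0 b0 := mul_nonneg h3 h5.le
    linarith
  rcases h6.lt_or_eq with h7 | h7
  · exact h7
  exfalso
  have h8 : ∀ a ∈ Φ, (inner ℝ lam a : ℝ) = 0 := by
    intro a ha
    rcases h.lev.lev a ha with h9 | h9 | h9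
    · exact h.orth ha h9
    · rw [h.const ha h9 hb0 hb01, ← h7]
    · have h10 := h.const (h.lev.toRS.neg_mem ha) (by rw [map_neg, h9, neg_neg]) hb0 hb01
      rw [inner_neg_right, ← h7] at h10
      linarith
  have h9 : ∀ z ∈ AddSubgroup.closure (Φ : Set E), (inner ℝ lam z : ℝ) = 0 := by
    intro z hz
    induction hz using AddSubgroup.closure_induction with
    | mem c hc => exact h8 c hc
    | zero => rw [inner_zero_right]
    | add a b _ _ ha hb => rw [inner_add_right, ha, hb, add_zero]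
    | neg a _ ha => rw [inner_neg_right, ha, neg_zero]
  have h10 := h9 _ (h.sat.coset lam h.lam_mem (-lam) (h.sat.neg lam h.lam_mem))
  rw [sub_neg_eq_add, inner_add_right] at h10
  have h11 : (inner ℝ lam lam : ℝ) = 0 := by linarith
  have h12 : lam = 0 := inner_self_eq_zero.1 h11
  have h13 := h.lam_lev
  rw [h12, map_zero] at h13
  norm_num at h13

/-- The pairing of the top weight with a root of level one. -/
theorem Cfg.exists_m {c : ℝ} (hc : 0 < c) {b : E} (hb : b ∈ Φ) (hb1 : ℓ b = 1)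
    (hbc : (inner ℝ lam b : ℝ) = c) : ∃ m : ℕ, (m = 1 ∨ m = 2 ∨ m = 3) ∧ (m : ℝ) * inner ℝ b b = 2 * c ∧
      lam - (m : ℝ) • b ∈ X := by
  obtain ⟨k, hk⟩ := h.sat.int b hb lam h.lam_mem
  have h4 := co_mul_self (x := lam) (h.lev.toRS.inner_pos hb)
  have h5 := h.lev.toRS.inner_pos hb
  rw [hk, hbc] at h4
  have h6 : (0 : ℝ) < k := by
    by_contra h7
    push Not at h7
    have : (k : ℝ) * inner ℝ b b ≤ 0 := mul_nonpos_of_nonpos_of_nonneg h7 h5.le
    linarith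
  have h7 : 0 < k := by exact_mod_cast h6
  have h1 := sat_refl h.lev.toRS h.sat hb h.lam_mem
  have h2 := h.ge _ h1
  rw [hk, map_sub, lev_smul, hb1, h.lam_lev] at h2
  have h8 : (k : ℝ) ≤ 3 := by linarith
  have h9 : k ≤ 3 := by exact_mod_cast h8
  obtain ⟨m, rfl⟩ := Int.eq_ofNat_of_zero_le h7.le
  refine ⟨m, by omega, ?_, ?_⟩
  · exact_mod_cast h4
  · have h10 := h1
    rw [hk] at h10
    exact_mod_cast h10

/-- The case of a root with the pairing `3`. -/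
theorem Cfg.three {c : ℝ} (hc : 0 < c) (hcc : ∀ b ∈ Φ, ℓ b = 1 → (inner ℝ lam b : ℝ) = c) {b : E} (hb : b ∈ Φ)
    (hb1 : ℓ b = 1) (h3 : 3 * (inner ℝ b b : ℝ) = 2 * c) : ∀ b' ∈ Φ, ℓ b' = 1 → b' = b := by
  intro b' hb' hb1'
  obtain ⟨m, hm, hmb, hmX⟩ := h.exists_m hc hb hb1 (hcc b hb hb1)
  have hbb := h.lev.toRS.inner_pos hb
  have hm3 : m = 3 := by
    have h4 : ((m : ℝ) - 3) * inner ℝ b b = 0 := by linarith
    rcases mul_eq_zero.1 h4 with h5 | h5
    · have h6 : (m : ℝ) = 3 := by linarith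
      exact_mod_cast h6
    · linarith
  subst hm3
  have h4 := h.top _ (h.sat.neg _ hmX) (by
    have h5 : ((3 : ℕ) : ℝ) • b = ((3 : ℤ) : ℝ) • b := by norm_num
    rw [h5, map_neg, map_sub, lev_smul, hb1, h.lam_lev]
    norm_num)
  have h5 : (2 : ℝ) • lam = (3 : ℝ) • b := by
    have h6 : (3 : ℝ) • b = lam + lam := by
      nth_rewrite 1 [← h4]
      push_cast
      abel
    rw [h6, two_smul]
  have h6 : 2 * (inner ℝ lam b' : ℝ) = 3 * inner ℝ b b' := by
    have h7 := congrArg (fun z => (inner ℝ z b' : ℝ)) h5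
    simp only [inner_smul_left] at h7
    simpa using h7
  rw [hcc b' hb' hb1', ← h3] at h6
  have h7 : (inner ℝ b b' : ℝ) = inner ℝ b b := by linarith
  obtain ⟨m', hm', hmb', -⟩ := h.exists_m hc hb' hb1' (hcc b' hb' hb1')
  obtain ⟨k, hk⟩ := h.lev.int b' hb' b hb
  have h8 := co_mul_self (x := b) (h.lev.toRS.inner_pos hb')
  rw [hk, h7] at h8
  have h9 : (3 * k : ℝ) = 2 * m' := by
    have h10 := h.lev.toRS.inner_pos hb'
    have h11 : ((3 * k - 2 * m' : ℝ)) * inner ℝ b' b' = 0 := by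
      linear_combination 3 * h8 - 2 * hmb' + 2 * h3
    rcases mul_eq_zero.1 h11 with h12 | h12
    · linarith
    · linarith
  have h10 : (3 * k : ℤ) = 2 * m' := by exact_mod_cast h9
  have h11 : m' = 3 := by omega
  rw [h11] at hmb'
  push_cast at hmb'
  have h12 : (inner ℝ b' b' : ℝ) = inner ℝ b b := by linarith
  have h13 : (inner ℝ (b' - b) (b' - b) : ℝ) = 0 := by
    rw [inner_sub_left, inner_sub_right, inner_sub_right, real_inner_comm b b', h7, h12]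
    ring
  exact sub_eq_zero.1 (inner_self_eq_zero.1 h13)

/-- The norms. -/
theorem Cfg.norms {c : ℝ} (hc : 0 < c) (hcc : ∀ b ∈ Φ, ℓ b = 1 → (inner ℝ lam b : ℝ) = c)
    (h3 : ∀ b ∈ Φ, ℓ b = 1 → 3 * (inner ℝ b b : ℝ) ≠ 2 * c) {a : E} (ha : a ∈ Φ) :
    (inner ℝ a a : ℝ) = 2 * c ∨ (inner ℝ a a : ℝ) = c := by
  obtain ⟨w, hw, hwa⟩ := h.lev.conj ha
  have h1 := hw.inner h.lev.toRS a a
  have h2 := hw.mem h.lev.toRS ha
  rw [← h1]
  obtain ⟨m, hm, hmb, -⟩ := h.exists_m hc h2 hwa (hcc _ h2 hwa)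
  rcases hm with rfl | rfl | rfl
  · left
    push_cast at hmb
    linarith
  · right
    push_cast at hmb
    linarith
  · exact absurd (by push_cast at hmb; exact hmb) (h3 _ h2 hwa)

/-- Every root is not orthogonal to some root of norm `2 c`. -/
theorem Cfg.exists_long {c : ℝ} (hc : 0 < c) {b1 : E} (hb1 : b1 ∈ Φ) (hbb : (inner ℝ b1 b1 : ℝ) = 2 * c) {b : E}
    (hb : b ∈ Φ) : ∃ a ∈ Φ, (inner ℝ a a : ℝ) = 2 * c ∧ (inner ℝ a b : ℝ) ≠ 0 := by
  classical
  by_contra! hcon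
  let S : Finset E := Φ.filter fun a => ∀ l ∈ Φ, (inner ℝ l l : ℝ) = 2 * c → (inner ℝ l a : ℝ) = 0
  have hS : S = Φ := by
    refine h.lev.irr S (Finset.filter_subset _ _) ⟨b, Finset.mem_filter.2 ⟨hb, hcon⟩⟩ ?_
    intro a ha b' hb' hbS
    obtain ⟨haΦ, haS⟩ := Finset.mem_filter.1 ha
    by_contra h0
    apply hbS
    refine Finset.mem_filter.2 ⟨hb', fun l hl hll => ?_⟩
    have hpos := h.lev.toRS.inner_pos hb'
    have h1 := haS _ (h.lev.refl b' hb' l hl) (by rw [h.lev.toRS.inner_refl hb', hll])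
    have h2 := haS l hl hll
    rw [inner_sub_left, inner_smul_left, h2] at h1
    simp only [conj_trivial, zero_sub, neg_eq_zero] at h1
    have h3 : (inner ℝ b' a : ℝ) ≠ 0 := fun h4 => h0 (by rw [real_inner_comm]; exact h4)
    have h4 : co b' l = 0 := by
      rcases mul_eq_zero.1 h1 with h4 | h4
      · exact h4
      · exact absurd h4 h3
    have h5 := co_mul_self (x := l) hpos
    rw [h4, zero_mul] at h5
    linarith
  have h1 : b1 ∈ S := by rw [hS]; exact hb1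
  have h2 := (Finset.mem_filter.1 h1).2 b1 hb1 hbb
  rw [hbb] at h2
  linarith

end CY
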