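import Pool.Agent.Helper81.CY.RSet

/-!
Project CY (MP_b8862a_ag), block CY3: the number of the roots of level one.
-/

set_option linter.unusedSectionVars false

open Module PF PG

namespace CY

variable {E : Type*} [NormedAddCommGroup E] [InnerProductSpace ℝ E] {Φ X : Finset E} {ℓ : E →+ ℝ} {lam : E} {c : ℝ}
  {p q r : E}

/-- Not both of two of the sets are empty. -/
theorem Tri.nonempty (h : Tri Φ ℓ c p q r) : (R Φ ℓ c q r p).Nonempty ∨ (R Φ ℓ c r p q).Nonempty := by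
  by_contra! hcon
  obtain ⟨h1, h2⟩ := hcon
  have h3 := h.conn (fun x => x = p) ⟨p, h.hp, h.lp, rfl⟩ (by
    rintro a ha ha1 rfl b hb hb1 hne
    rcases h.cases hb hb1 with h4 | h4 | h4 | h4 | h4 | h4
    · exact absurd h4 hne
    · rw [h4]
      exact h.pq
    · rw [h4, real_inner_comm]
      exact h.rp
    · rw [real_inner_comm]
      exact (mem_R.1 h4).2.2.1
    · rw [h1] at h4
      exact absurd h4 (Finset.notMem_empty _)
    · rw [h2] at h4
      exact absurd h4 (Finset.notMem_empty _)) q h.hq h.lq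
  have h4 : q = p := h3
  have h5 := h.pq
  rw [h4, h.pp] at h5
  have := h.pos
  linarith

theorem eq_of_add_self {x y : E} (h : x + x = y + y) : x = y := by
  have h1 : (2 : ℝ) • x = (2 : ℝ) • y := by rw [two_smul, two_smul, h]
  exact smul_right_injective E (two_ne_zero) h1

/-- All the elements are short. -/
theorem Tri.all_short (h : Tri Φ ℓ c p q r) {x : E} (hx : x ∈ R Φ ℓ c p q r) (hxx : (inner ℝ x x : ℝ) = c) {y : E}
    (hy : y ∈ R Φ ℓ c q r p) : (inner ℝ y y : ℝ) = c := by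
  rcases h.norm y (mem_R.1 hy).1 with h1 | h1
  · exact absurd h1 fun h2 => h.short_long hx hxx hy h2
  · exact h1

theorem Tri.card_one (h : Tri Φ ℓ c p q r) (h1 : ∀ x ∈ R Φ ℓ c p q r, (inner ℝ x x : ℝ) = c)
    (h2 : (R Φ ℓ c p q r).Nonempty) : (R Φ ℓ c p q r).card = 1 := by
  apply le_antisymm
  · rw [Finset.card_le_one]
    intro a ha b hb
    exact eq_of_add_self ((h.short ha (h1 a ha)).trans (h.short hb (h1 b hb)).symm)
  · exact Finset.card_pos.2 h2

open Classical in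
theorem Tri.six_aux (h : Tri Φ ℓ c p q r) {x : E} (hx : x ∈ R Φ ℓ c p q r) (hxx : (inner ℝ x x : ℝ) = c) {y : E}
    (hy : y ∈ R Φ ℓ c q r p) : (Φ.filter fun x => ℓ x = 1).card = 6 := by
  have hc := h.pos
  have hyy := h.all_short hx hxx hy
  have ex := h.short hx hxx
  have ey := h.rot.short hy hyy
  obtain ⟨h1, h2, h3, h4, h5⟩ := mem_R.1 hx
  obtain ⟨g1, g2, g3, g4, g5⟩ := mem_R.1 hy
  have hxy : (inner ℝ x y : ℝ) = c / 2 := by
    have h6 := congrArg (fun z => (inner ℝ z y : ℝ)) ex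
    simp only [inner_add_left] at h6
    rw [real_inner_comm y q, real_inner_comm y r, g3, g4] at h6
    linarith
  have hne : x ≠ y := by
    intro h6
    rw [h6, g5] at h3
    linarith
  obtain ⟨h6, h7⟩ := h.lev.sub h1 g1 h2 g2 (by rw [hxy]; linarith) hne
  have h8 := h.lev.toRS.add_mem h6 h.hp (by rw [inner_sub_left, h3, g5]; linarith) (by
    intro h9
    rw [h9, map_neg, h.lp] at h7
    norm_num at h7)
  have hz : x - y + p ∈ R Φ ℓ c r p q := by
    refine mem_R.2 ⟨h8, ?_, ?_, ?_, ?_⟩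
    · rw [map_add, map_sub, h2, g2, h.lp]
      norm_num
    · rw [inner_add_left, inner_sub_left, h5, g4, real_inner_comm, h.rp]
      ring
    · rw [inner_add_left, inner_sub_left, h3, g5, h.pp]
      ring
    · rw [inner_add_left, inner_sub_left, h4, g3, h.pq]
      ring
  have s2 : ∀ y ∈ R Φ ℓ c q r p, (inner ℝ y y : ℝ) = c := fun y hy => h.all_short hx hxx hy
  have s3 : ∀ z ∈ R Φ ℓ c r p q, (inner ℝ z z : ℝ) = c := fun z hz => h.rot.all_short hy hyy hz
  have s1 : ∀ x ∈ R Φ ℓ c p q r, (inner ℝ x x : ℝ) = c := fun x hx => h.rot.rot.all_short hz (s3 _ hz) hx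
  rw [h.card_eq, h.card_one s1 ⟨x, hx⟩, h.rot.card_one s2 ⟨y, hy⟩, h.rot.rot.card_one s3 ⟨_, hz⟩]

open Classical in
/-- The case of a short root. -/
theorem Tri.six (h : Tri Φ ℓ c p q r) {x : E} (hx : x ∈ R Φ ℓ c p q r) (hxx : (inner ℝ x x : ℝ) = c) :
    (Φ.filter fun x => ℓ x = 1).card = 6 := by
  rcases h.nonempty with ⟨y, hy⟩ | ⟨y, hy⟩
  · exact h.six_aux hx hxx hy
  · rw [R_comm] at hx hy
    exact h.swap.rot.six_aux hx hxx hy

/-- Two representatives. -/
theorem Tri.inner_H (h : Tri Φ ℓ c p q r) {x x' y : E} (hx : x ∈ R Φ ℓ c p q r) (hx' : x' ∈ R Φ ℓ c p q r)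
    (hxx' : (inner ℝ x' x' : ℝ) = 2 * c) (hy : y ∈ R Φ ℓ c q r p) (h1 : (inner ℝ x y : ℝ) = 0)
    (h2 : (inner ℝ x' y : ℝ) = 0) (hne : x ≠ x') : (inner ℝ x x' : ℝ) = c := by
  have hc := h.pos
  obtain ⟨f1, f2, f3, f4, f5⟩ := mem_R.1 hx
  obtain ⟨e1, e2, e3, e4, e5⟩ := mem_R.1 hx'
  obtain ⟨g1, g2, g3, g4, g5⟩ := mem_R.1 hy
  rcases h.inner_long f1 f2 e1 e2 hxx' with h3 | h3 | ⟨-, h3⟩
  · exfalso
    obtain ⟨d1, d2, -⟩ := mem_R.1 (h.conj hx)
    have h4 : (inner ℝ (q + r - x) x' : ℝ) = 2 * c := by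
      rw [inner_sub_left, inner_add_left, real_inner_comm x' q, real_inner_comm x' r, e4, e5, h3]
      ring
    rcases h.inner_long d1 d2 e1 e2 hxx' with h5 | h5 | ⟨-, h5⟩
    · linarith
    · linarith
    · rw [← h5, inner_sub_left, inner_add_left, real_inner_comm y q, real_inner_comm y r, g3, g4, h1] at h2
      linarith
  · exact h3
  · exact absurd h3 hne

/-- The change of two signs. -/
theorem Tri.flip (h : Tri Φ ℓ c p q r) {x x' y : E} (hx : x ∈ R Φ ℓ c p q r) (hx' : x' ∈ R Φ ℓ c p q r)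
    (hxx' : (inner ℝ x x' : ℝ) = c) (hy : y ∈ R Φ ℓ c q r p) (h1 : (inner ℝ x y : ℝ) = 0)
    (h2 : (inner ℝ x' y : ℝ) = 0) : y + (x + x' - (q + r)) ∈ R Φ ℓ c q r p := by
  have hc := h.pos
  have hx'' := h.conj hx'
  obtain ⟨f1, f2, f3, f4, f5⟩ := mem_R.1 hx
  obtain ⟨e1, e2, e3, e4, e5⟩ := mem_R.1 hx''
  obtain ⟨g1, g2, g3, g4, g5⟩ := mem_R.1 hy
  have h3 : (inner ℝ x (q + r - x') : ℝ) = c := by
    rw [inner_sub_right, inner_add_right, f4, f5, hxx']
    ring
  have h4 : (inner ℝ (q + r - x') y : ℝ) = c := by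
    rw [inner_sub_left, inner_add_left, real_inner_comm y q, real_inner_comm y r, g3, g4, h2]
    ring
  have hne : x ≠ q + r - x' := by
    intro h5
    rw [h5, h4] at h1
    linarith
  obtain ⟨h6, h7⟩ := h.lev.sub f1 e1 f2 e2 (by rw [h3]; exact hc) hne
  have h8 := h.lev.toRS.add_mem g1 h6 (by
    rw [real_inner_comm, inner_sub_left, h1, h4]
    linarith) (by
    intro h9
    rw [h9, map_neg, h7] at g2
    norm_num at g2)
  have h9 : y + (x - (q + r - x')) = y + (x + x' - (q + r)) := by abel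
  rw [h9] at h8
  have h10 : y + (x + x' - (q + r)) = y + (x - (q + r - x')) := by abel
  refine mem_R.2 ⟨h8, ?_, ?_, ?_, ?_⟩
  · rw [h10, map_add, h7, g2]
    norm_num
  · rw [h10, inner_add_left, inner_sub_left, g3, f4, e4]
    ring
  · rw [h10, inner_add_left, inner_sub_left, g4, f5, e5]
    ring
  · rw [h10, inner_add_left, inner_sub_left, g5, f3, e3]
    ring

/-- Four elements without signs. -/
theorem Tri.eight (h : Tri Φ ℓ c p q r) {a1 a2 a3 a4 : E} (m1 : a1 ∈ R Φ ℓ c p q r) (m2 : a2 ∈ R Φ ℓ c p q r)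
    (m3 : a3 ∈ R Φ ℓ c p q r) (m4 : a4 ∈ R Φ ℓ c p q r)
    (hl : ∀ x ∈ R Φ ℓ c p q r, (inner ℝ x x : ℝ) = 2 * c)
    (h12 : (inner ℝ a1 a2 : ℝ) = c) (h13 : (inner ℝ a1 a3 : ℝ) = c) (h14 : (inner ℝ a1 a4 : ℝ) = c)
    (h23 : (inner ℝ a2 a3 : ℝ) = c) (h24 : (inner ℝ a2 a4 : ℝ) = c) (h34 : (inner ℝ a3 a4 : ℝ) = c) :
    8 ≤ (R Φ ℓ c p q r).card := by
  classical
  have hc := h.pos
  have ne : ∀ a b : E, a ∈ R Φ ℓ c p q r → (inner ℝ a b : ℝ) = c → a ≠ b := by
    intro a b ha hab he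
    rw [← he, hl a ha] at hab
    linarith
  let T : Finset E := {a1, a2, a3, a4}
  have hT4 : T.card = 4 := by
    have n12 := ne _ _ m1 h12
    have n13 := ne _ _ m1 h13
    have n14 := ne _ _ m1 h14
    have n23 := ne _ _ m2 h23
    have n24 := ne _ _ m2 h24
    have n34 := ne _ _ m3 h34
    show ({a1, a2, a3, a4} : Finset E).card = 4
    rw [Finset.card_insert_of_notMem, Finset.card_insert_of_notMem, Finset.card_insert_of_notMem,
      Finset.card_singleton]
    · simpa using n34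
    · simp [n23, n24]
    · simp [n12, n13, n14]
  have hTm : ∀ t ∈ T, t ∈ R Φ ℓ c p q r := by
    intro t ht
    simp only [T, Finset.mem_insert, Finset.mem_singleton] at ht
    rcases ht with rfl | rfl | rfl | rfl <;> assumption
  have hTi : ∀ t ∈ T, ∀ t' ∈ T, (0 : ℝ) < inner ℝ t t' := by
    have h21 : (inner ℝ a2 a1 : ℝ) = c := by rw [real_inner_comm]; exact h12
    have h31 : (inner ℝ a3 a1 : ℝ) = c := by rw [real_inner_comm]; exact h13
    have h41 : (inner ℝ a4 a1 : ℝ) = c := by rw [real_inner_comm]; exact h14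
    have h32 : (inner ℝ a3 a2 : ℝ) = c := by rw [real_inner_comm]; exact h23
    have h42 : (inner ℝ a4 a2 : ℝ) = c := by rw [real_inner_comm]; exact h24
    have h43 : (inner ℝ a4 a3 : ℝ) = c := by rw [real_inner_comm]; exact h34
    have h11 := hl _ m1
    have h22 := hl _ m2
    have h33 := hl _ m3
    have h44 := hl _ m4
    intro t ht t' ht'
    simp only [T, Finset.mem_insert, Finset.mem_singleton] at ht ht'
    rcases ht with rfl | rfl | rfl | rfl <;> rcases ht' with rfl | rfl | rfl | rfl <;> linarith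
  have hinj : Function.Injective fun x : E => q + r - x := fun x y hxy => sub_right_injective hxy
  have h1 : Disjoint T (T.image fun x => q + r - x) := by
    rw [Finset.disjoint_left]
    intro t ht ht'
    obtain ⟨s, hs, hst⟩ := Finset.mem_image.1 ht'
    have h2 := hTi t ht s hs
    have hs' := hTm s hs
    obtain ⟨-, -, -, e4, e5⟩ := mem_R.1 hs'
    rw [← hst, inner_sub_left, inner_add_left, real_inner_comm s q, real_inner_comm s r, e4, e5, hl s hs'] at h2
    linarith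
  have h2 : T ∪ (T.image fun x => q + r - x) ⊆ R Φ ℓ c p q r := by
    apply Finset.union_subset hTm
    intro t ht
    obtain ⟨s, hs, rfl⟩ := Finset.mem_image.1 ht
    exact h.conj (hTm s hs)
  have h3 := Finset.card_le_card h2
  rw [Finset.card_union_of_disjoint h1, Finset.card_image_of_injective _ hinj, hT4] at h3
  exact h3

open Classical in
/-- The representatives. -/
noncomputable def H (Φ : Finset E) (ℓ : E →+ ℝ) (c : ℝ) (p q r y : E) : Finset E :=
  (R Φ ℓ c p q r).filter fun x => (inner ℝ x y : ℝ) = 0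

theorem mem_H {x y : E} : x ∈ H Φ ℓ c p q r y ↔ x ∈ R Φ ℓ c p q r ∧ (inner ℝ x y : ℝ) = 0 := by
  unfold H
  rw [Finset.mem_filter]

theorem Tri.card_H (h : Tri Φ ℓ c p q r) {y : E} (hy : y ∈ R Φ ℓ c q r p) (hyy : (inner ℝ y y : ℝ) = 2 * c) :
    (R Φ ℓ c p q r).card = 2 * (H Φ ℓ c p q r y).card := by
  classical
  have hc := h.pos
  obtain ⟨g1, g2, g3, g4, g5⟩ := mem_R.1 hy
  have hinj : Function.Injective fun x : E => q + r - x := fun x y hxy => sub_right_injective hxy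
  have h1 : R Φ ℓ c p q r = H Φ ℓ c p q r y ∪ (H Φ ℓ c p q r y).image fun x => q + r - x := by
    ext x
    rw [Finset.mem_union, Finset.mem_image, mem_H]
    constructor
    · intro hx
      rcases h.inner_RR hx hy hyy with h2 | h2
      · exact Or.inl ⟨hx, h2⟩
      · refine Or.inr ⟨q + r - x, mem_H.2 ⟨h.conj hx, ?_⟩, by abel⟩
        rw [inner_sub_left, inner_add_left, real_inner_comm y q, real_inner_comm y r, g3, g4, h2]
        ring
    · rintro (hx | ⟨z, hz, rfl⟩)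
      · exact hx.1
      · exact h.conj (mem_H.1 hz).1
  have h2 : Disjoint (H Φ ℓ c p q r y) ((H Φ ℓ c p q r y).image fun x => q + r - x) := by
    rw [Finset.disjoint_left]
    intro t ht ht'
    obtain ⟨s, hs, hst⟩ := Finset.mem_image.1 ht'
    have h2 := (mem_H.1 ht).2
    rw [← hst, inner_sub_left, inner_add_left, real_inner_comm y q, real_inner_comm y r, g3, g4,
      (mem_H.1 hs).2] at h2
    linarith
  have h3 : ((H Φ ℓ c p q r y) ∪ (H Φ ℓ c p q r y).image fun x => q + r - x).card =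
      2 * (H Φ ℓ c p q r y).card := by
    rw [Finset.card_union_of_disjoint h2, Finset.card_image_of_injective _ hinj]
    ring
  rw [← h3, ← h1]

/-- Bessel's inequality. -/
theorem Tri.bessel (h : Tri Φ ℓ c p q r) {y : E} (hy : y ∈ R Φ ℓ c q r p) (hyy : (inner ℝ y y : ℝ) = 2 * c)
    (hl : ∀ x ∈ R Φ ℓ c p q r, (inner ℝ x x : ℝ) = 2 * c) : (H Φ ℓ c p q r y).card ≤ 4 := by
  classical
  have hc := h.pos
  obtain ⟨g1, g2, g3, g4, g5⟩ := mem_R.1 hy
  set u : E → E := fun x => (2 : ℝ) • x - (q + r) with hu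
  set v : E := (2 : ℝ) • y - (r + p) with hv
  have hqr := h.qr
  have hrq : (inner ℝ r q : ℝ) = 0 := by rw [real_inner_comm]; exact h.qr
  have hpr : (inner ℝ p r : ℝ) = 0 := by rw [real_inner_comm]; exact h.rp
  have hqp : (inner ℝ q p : ℝ) = 0 := by rw [real_inner_comm]; exact h.pq
  have huu : ∀ x ∈ R Φ ℓ c p q r, ∀ x' ∈ R Φ ℓ c p q r, (inner ℝ (u x) (u x') : ℝ) = 4 * inner ℝ x x' - 4 * c := by
    intro x hx x' hx'
    obtain ⟨-, -, -, e4, e5⟩ := mem_R.1 hx
    obtain ⟨-, -, -, f4, f5⟩ := mem_R.1 hx'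
    simp only [hu, inner_sub_left, inner_sub_right, inner_add_left, inner_add_right, inner_smul_left,
      inner_smul_right, conj_trivial]
    rw [real_inner_comm x' q, real_inner_comm x' r, e4, e5, f4, f5, h.qq, h.rr, hqr, hrq]
    ring
  have hvv : (inner ℝ v v : ℝ) = 4 * c := by
    simp only [hv, inner_sub_left, inner_sub_right, inner_add_left, inner_add_right, inner_smul_left,
      inner_smul_right, conj_trivial]
    rw [real_inner_comm y r, real_inner_comm y p, g4, g5, h.pp, h.rr, h.rp, hpr, hyy]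
    ring
  have huv : ∀ x ∈ H Φ ℓ c p q r y, (inner ℝ (u x) v : ℝ) = -2 * c := by
    intro x hx
    obtain ⟨hxR, hx0⟩ := mem_H.1 hx
    obtain ⟨-, -, e3, e4, e5⟩ := mem_R.1 hxR
    simp only [hu, hv, inner_sub_left, inner_sub_right, inner_add_left, inner_add_right, inner_smul_left,
      inner_smul_right, conj_trivial]
    rw [real_inner_comm y q, real_inner_comm y r, g3, g4, e3, e5, hx0, h.rr, hqr, hqp, h.rp]
    ring
  have hSS : (inner ℝ (∑ x ∈ H Φ ℓ c p q r y, u x) (∑ x ∈ H Φ ℓ c p q r y, u x) : ℝ) =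
      4 * c * (H Φ ℓ c p q r y).card := by
    rw [sum_inner]
    have h1 : ∀ x ∈ H Φ ℓ c p q r y, (inner ℝ (u x) (∑ x ∈ H Φ ℓ c p q r y, u x) : ℝ) = 4 * c := by
      intro x hx
      rw [inner_sum, Finset.sum_eq_single x]
      · rw [huu x (mem_H.1 hx).1 x (mem_H.1 hx).1, hl x (mem_H.1 hx).1]
        ring
      · intro x' hx' hne
        rw [huu x (mem_H.1 hx).1 x' (mem_H.1 hx').1, h.inner_H (mem_H.1 hx).1 (mem_H.1 hx').1
          (hl x' (mem_H.1 hx').1) hy (mem_H.1 hx).2 (mem_H.1 hx').2 (Ne.symm hne)]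
        ring
      · intro h2
        exact absurd hx h2
    rw [Finset.sum_congr rfl h1, Finset.sum_const, nsmul_eq_mul]
    ring
  have hSv : (inner ℝ (∑ x ∈ H Φ ℓ c p q r y, u x) v : ℝ) = -2 * c * (H Φ ℓ c p q r y).card := by
    rw [sum_inner, Finset.sum_congr rfl huv, Finset.sum_const, nsmul_eq_mul]
    ring
  have h1 : (0 : ℝ) ≤ inner ℝ ((2 : ℝ) • v + ∑ x ∈ H Φ ℓ c p q r y, u x)
      ((2 : ℝ) • v + ∑ x ∈ H Φ ℓ c p q r y, u x) := real_inner_self_nonneg
  rw [inner_add_left, inner_add_right, inner_add_right, inner_smul_left, inner_smul_right, inner_smul_left,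
    inner_smul_right, real_inner_comm (∑ x ∈ H Φ ℓ c p q r y, u x) v, hvv, hSS, hSv] at h1
  simp only [conj_trivial] at h1
  have h2 : (0 : ℝ) ≤ 4 * c * (4 - (H Φ ℓ c p q r y).card) := by linarith
  have h3 : (0 : ℝ) ≤ 4 - (H Φ ℓ c p q r y).card := by
    by_contra h4
    push Not at h4
    have := mul_neg_of_pos_of_neg (by linarith : (0 : ℝ) < 4 * c) h4
    linarith
  have h4 : ((H Φ ℓ c p q r y).card : ℝ) ≤ 4 := by linarith
  exact_mod_cast h4

/-- Three representatives give four elements. -/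
theorem Tri.three (h : Tri Φ ℓ c p q r) {y : E} (hy : y ∈ R Φ ℓ c q r p)
    (hl : ∀ x ∈ R Φ ℓ c p q r, (inner ℝ x x : ℝ) = 2 * c) (hl' : ∀ x ∈ R Φ ℓ c q r p, (inner ℝ x x : ℝ) = 2 * c)
    (h3 : (H Φ ℓ c p q r y).card = 3) : 8 ≤ (R Φ ℓ c q r p).card := by
  classical
  obtain ⟨x1, x2, x3, n12, n13, n23, e⟩ := Finset.card_eq_three.1 h3
  have m1 : x1 ∈ H Φ ℓ c p q r y := by rw [e]; simp
  have m2 : x2 ∈ H Φ ℓ c p q r y := by rw [e]; simp
  have m3 : x3 ∈ H Φ ℓ c p q r y := by rw [e]; simp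
  obtain ⟨m1, o1⟩ := mem_H.1 m1
  obtain ⟨m2, o2⟩ := mem_H.1 m2
  obtain ⟨m3, o3⟩ := mem_H.1 m3
  have i12 := h.inner_H m1 m2 (hl _ m2) hy o1 o2 n12
  have i13 := h.inner_H m1 m3 (hl _ m3) hy o1 o3 n13
  have i23 := h.inner_H m2 m3 (hl _ m3) hy o2 o3 n23
  have f12 := h.flip m1 m2 i12 hy o1 o2
  have f13 := h.flip m1 m3 i13 hy o1 o3
  have f23 := h.flip m2 m3 i23 hy o2 o3
  have i21 : (inner ℝ x2 x1 : ℝ) = c := by rw [real_inner_comm]; exact i12
  have i31 : (inner ℝ x3 x1 : ℝ) = c := by rw [real_inner_comm]; exact i13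
  have i32 : (inner ℝ x3 x2 : ℝ) = c := by rw [real_inner_comm]; exact i23
  have l1 := hl _ m1
  have l2 := hl _ m2
  have l3 := hl _ m3
  have ly := hl' _ hy
  obtain ⟨-, -, -, q1, r1⟩ := mem_R.1 m1
  obtain ⟨-, -, -, q2, r2⟩ := mem_R.1 m2
  obtain ⟨-, -, -, q3, r3⟩ := mem_R.1 m3
  obtain ⟨-, -, yq, yr, yp⟩ := mem_R.1 hy
  have hqr := h.qr
  have hrq : (inner ℝ r q : ℝ) = 0 := by rw [real_inner_comm]; exact h.qr
  have hqq := h.qq
  have hrr := h.rr
  have c1 : (inner ℝ q x1 : ℝ) = c := by rw [real_inner_comm]; exact q1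
  have c2 : (inner ℝ q x2 : ℝ) = c := by rw [real_inner_comm]; exact q2
  have c3 : (inner ℝ q x3 : ℝ) = c := by rw [real_inner_comm]; exact q3
  have d1 : (inner ℝ r x1 : ℝ) = c := by rw [real_inner_comm]; exact r1
  have d2 : (inner ℝ r x2 : ℝ) = c := by rw [real_inner_comm]; exact r2
  have d3 : (inner ℝ r x3 : ℝ) = c := by rw [real_inner_comm]; exact r3
  have p1 : (inner ℝ y x1 : ℝ) = 0 := by rw [real_inner_comm]; exact o1
  have p2 : (inner ℝ y x2 : ℝ) = 0 := by rw [real_inner_comm]; exact o2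
  have p3 : (inner ℝ y x3 : ℝ) = 0 := by rw [real_inner_comm]; exact o3
  have qy : (inner ℝ q y : ℝ) = 0 := by rw [real_inner_comm]; exact yq
  have ry : (inner ℝ r y : ℝ) = c := by rw [real_inner_comm]; exact yr
  refine h.rot.eight hy f12 f13 f23 hl' ?_ ?_ ?_ ?_ ?_ ?_
  · simp only [inner_sub_left, inner_sub_right, inner_add_left, inner_add_right]
    linarith
  · simp only [inner_sub_left, inner_sub_right, inner_add_left, inner_add_right]
    linarith
  · simp only [inner_sub_left, inner_sub_right, inner_add_left, inner_add_right]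
    linarith
  · simp only [inner_sub_left, inner_sub_right, inner_add_left, inner_add_right]
    linarith
  · simp only [inner_sub_left, inner_sub_right, inner_add_left, inner_add_right]
    linarith
  · simp only [inner_sub_left, inner_sub_right, inner_add_left, inner_add_right]
    linarith

open Classical in
/-- The number of the roots of level one. -/
theorem Tri.count (h : Tri Φ ℓ c p q r) : (Φ.filter fun x => ℓ x = 1).card = 6 ∨
    (Φ.filter fun x => ℓ x = 1).card = 9 ∨ (Φ.filter fun x => ℓ x = 1).card = 15 ∨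
    (Φ.filter fun x => ℓ x = 1).card = 27 := by
  by_cases s1 : ∃ x ∈ R Φ ℓ c p q r, (inner ℝ x x : ℝ) = c
  · obtain ⟨x, hx, hxx⟩ := s1
    exact Or.inl (h.six hx hxx)
  by_cases s2 : ∃ x ∈ R Φ ℓ c q r p, (inner ℝ x x : ℝ) = c
  · obtain ⟨x, hx, hxx⟩ := s2
    exact Or.inl (h.rot.six hx hxx)
  by_cases s3 : ∃ x ∈ R Φ ℓ c r p q, (inner ℝ x x : ℝ) = c
  · obtain ⟨x, hx, hxx⟩ := s3
    exact Or.inl (h.rot.rot.six hx hxx)
  have l1 : ∀ x ∈ R Φ ℓ c p q r, (inner ℝ x x : ℝ) = 2 * c := by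
    intro x hx
    rcases h.norm x (mem_R.1 hx).1 with h1 | h1
    · exact h1
    · exact absurd ⟨x, hx, h1⟩ s1
  have l2 : ∀ x ∈ R Φ ℓ c q r p, (inner ℝ x x : ℝ) = 2 * c := by
    intro x hx
    rcases h.norm x (mem_R.1 hx).1 with h1 | h1
    · exact h1
    · exact absurd ⟨x, hx, h1⟩ s2
  have l3 : ∀ x ∈ R Φ ℓ c r p q, (inner ℝ x x : ℝ) = 2 * c := by
    intro x hx
    rcases h.norm x (mem_R.1 hx).1 with h1 | h1
    · exact h1
    · exact absurd ⟨x, hx, h1⟩ s3
  have A : (R Φ ℓ c q r p).Nonempty → (R Φ ℓ c p q r).card ≤ (R Φ ℓ c r p q).card := by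
    rintro ⟨y, hy⟩
    exact h.card_le hy (l2 y hy)
  have B : (R Φ ℓ c r p q).Nonempty → (R Φ ℓ c q r p).card ≤ (R Φ ℓ c p q r).card := by
    rintro ⟨y, hy⟩
    exact h.rot.card_le hy (l3 y hy)
  have C : (R Φ ℓ c p q r).Nonempty → (R Φ ℓ c r p q).card ≤ (R Φ ℓ c q r p).card := by
    rintro ⟨y, hy⟩
    exact h.rot.rot.card_le hy (l1 y hy)
  have n1 := h.nonempty
  have n2 := h.rot.nonempty
  have n3 := h.rot.rot.nonempty
  simp only [← Finset.card_pos] at A B C n1 n2 n3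
  have hne : 0 < (R Φ ℓ c p q r).card ∧ 0 < (R Φ ℓ c q r p).card ∧ 0 < (R Φ ℓ c r p q).card := by omega
  have eq1 : (R Φ ℓ c q r p).card = (R Φ ℓ c p q r).card := by
    have := A hne.2.1
    have := B hne.2.2
    have := C hne.1
    omega
  have eq2 : (R Φ ℓ c r p q).card = (R Φ ℓ c p q r).card := by
    have := A hne.2.1
    have := B hne.2.2
    have := C hne.1
    omega
  obtain ⟨y, hy⟩ := Finset.card_pos.1 hne.2.1
  have h1 := h.card_H hy (l2 y hy)
  have h2 := h.bessel hy (l2 y hy) l1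
  have h3 : (H Φ ℓ c p q r y).card ≠ 3 := by
    intro h4
    have h5 := h.three hy l1 l2 h4
    omega
  rw [h.card_eq]
  omega

open Classical in
/-- CY3: the number of the roots of level one is `1, 6, 9, 15` or `27`. -/
theorem Cfg.count (h : Cfg Φ X ℓ lam) : (Φ.filter fun x => ℓ x = 1).card = 1 ∨
    (Φ.filter fun x => ℓ x = 1).card = 6 ∨
    (Φ.filter fun x => ℓ x = 1).card = 9 ∨ (Φ.filter fun x => ℓ x = 1).card = 15 ∨
    (Φ.filter fun x => ℓ x = 1).card = 27 := by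
  obtain ⟨c, hc, hcc⟩ := h.exists_c
  by_cases h3 : ∃ b ∈ Φ, ℓ b = 1 ∧ 3 * (inner ℝ b b : ℝ) = 2 * c
  · obtain ⟨b, hb, hb1, hbb⟩ := h3
    left
    rw [Finset.card_eq_one]
    refine ⟨b, ?_⟩
    ext x
    rw [Finset.mem_filter, Finset.mem_singleton]
    constructor
    · rintro ⟨hx, hx1⟩
      exact h.three hc hcc hb hb1 hbb x hx hx1
    · rintro rfl
      exact ⟨hb, hb1⟩
  · right
    obtain ⟨p, q, r, ht⟩ := h.exists_tri hc hcc (fun b hb hb1 hbb => h3 ⟨b, hb, hb1, hbb⟩)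
    exact ht.count

theorem Cfg.ncard (h : Cfg Φ X ℓ lam) : {x | x ∈ Φ ∧ ℓ x = 1}.ncard = 1 ∨ {x | x ∈ Φ ∧ ℓ x = 1}.ncard = 6 ∨
    {x | x ∈ Φ ∧ ℓ x = 1}.ncard = 9 ∨ {x | x ∈ Φ ∧ ℓ x = 1}.ncard = 15 ∨ {x | x ∈ Φ ∧ ℓ x = 1}.ncard = 27 := by
  classical
  have h1 : {x | x ∈ Φ ∧ ℓ x = 1} = ((Φ.filter fun x => ℓ x = 1 : Finset E) : Set E) := by
    ext x
    simp
  rw [h1, Set.ncard_coe_finset]
  exact h.count

end CY
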