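import Pool.Agent.Helper81.CY.Tri

/-!
Project CY (MP_b8862a_ag), block CY3: the three sets of roots of level one.
-/

set_option linter.unusedSectionVars false

open Module PF PG

namespace CY

variable {E : Type*} [NormedAddCommGroup E] [InnerProductSpace ℝ E] {Φ X : Finset E} {ℓ : E →+ ℝ} {lam : E} {c : ℝ}
  {p q r : E}

open Classical in
/-- The roots of level one which are orthogonal to `p`, other than `q` and `r`. -/
noncomputable def R (Φ : Finset E) (ℓ : E →+ ℝ) (c : ℝ) (p q r : E) : Finset E :=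
  Φ.filter fun x => ℓ x = 1 ∧ (inner ℝ x p : ℝ) = 0 ∧ (inner ℝ x q : ℝ) = c ∧ (inner ℝ x r : ℝ) = c

theorem mem_R {x : E} : x ∈ R Φ ℓ c p q r ↔
    x ∈ Φ ∧ ℓ x = 1 ∧ (inner ℝ x p : ℝ) = 0 ∧ (inner ℝ x q : ℝ) = c ∧ (inner ℝ x r : ℝ) = c := by
  unfold R
  rw [Finset.mem_filter]

theorem R_comm : R Φ ℓ c p q r = R Φ ℓ c p r q := by
  ext x
  rw [mem_R, mem_R]
  tauto

/-- The inner products with a long root of level one. -/
theorem Tri.inner_long (h : Tri Φ ℓ c p q r) {x a : E} (hx : x ∈ Φ) (hx1 : ℓ x = 1) (ha : a ∈ Φ) (ha1 : ℓ a = 1)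
    (haa : (inner ℝ a a : ℝ) = 2 * c) :
    (inner ℝ x a : ℝ) = 0 ∨ (inner ℝ x a : ℝ) = c ∨ ((inner ℝ x a : ℝ) = 2 * c ∧ x = a) := by
  have hc := h.pos
  obtain ⟨k, hk⟩ := h.lev.int a ha x hx
  have h14 := co_mul_self (x := x) (h.lev.toRS.inner_pos ha)
  have h16 := (abs_le.1 (h.lev.abs_co_root_le ha hx)).2
  have h17 := h.lev.nonneg hx ha hx1 ha1
  rw [hk, haa] at h14
  rw [hk] at h16
  have h18 : (k : ℝ) * c = inner ℝ x a := by linarith
  have h19 : (0 : ℝ) ≤ k := by
    by_contra h19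
    push Not at h19
    have := mul_neg_of_neg_of_pos h19 hc
    linarith
  have h20 : 0 ≤ k := by exact_mod_cast h19
  have h21 : k ≤ 2 := by exact_mod_cast h16
  have h22 : k = 0 ∨ k = 1 ∨ k = 2 := by omega
  rcases h22 with rfl | rfl | rfl
  · left
    rw [← h18]
    simp
  · right; left
    rw [← h18]
    simp
  · right; right
    have h23 : (inner ℝ x a : ℝ) = 2 * c := by
      rw [← h18]
      push_cast
      rfl
    refine ⟨h23, ?_⟩
    have h24 : (inner ℝ (x - a) (x - a) : ℝ) ≤ 0 := by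
      rw [inner_sub_left, inner_sub_right, inner_sub_right, real_inner_comm x a, h23, haa]
      rcases h.norm x hx with h25 | h25 <;> rw [h25] <;> linarith
    exact sub_eq_zero.1 (inner_self_eq_zero.1 (le_antisymm h24 real_inner_self_nonneg))

theorem Tri.cases (h : Tri Φ ℓ c p q r) {x : E} (hx : x ∈ Φ) (hx1 : ℓ x = 1) :
    x = p ∨ x = q ∨ x = r ∨ x ∈ R Φ ℓ c p q r ∨ x ∈ R Φ ℓ c q r p ∨ x ∈ R Φ ℓ c r p q := by
  have hc := h.pos
  have hs := h.sum x hx hx1
  rcases h.inner_long hx hx1 h.hp h.lp h.pp with h1 | h1 | ⟨-, h1⟩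
  · rcases h.inner_long hx hx1 h.hq h.lq h.qq with h2 | h2 | ⟨-, h2⟩
    · rcases h.inner_long hx hx1 h.hr h.lr h.rr with h3 | h3 | ⟨-, h3⟩
      · exfalso
        linarith
      · exfalso
        linarith
      · exact Or.inr (Or.inr (Or.inl h3))
    · rcases h.inner_long hx hx1 h.hr h.lr h.rr with h3 | h3 | ⟨h3, -⟩
      · exfalso
        linarith
      · exact Or.inr (Or.inr (Or.inr (Or.inl (mem_R.2 ⟨hx, hx1, h1, h2, h3⟩))))
      · exfalso
        linarith
    · exact Or.inr (Or.inl h2)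
  · rcases h.inner_long hx hx1 h.hq h.lq h.qq with h2 | h2 | ⟨h2, -⟩
    · rcases h.inner_long hx hx1 h.hr h.lr h.rr with h3 | h3 | ⟨h3, -⟩
      · exfalso
        linarith
      · exact Or.inr (Or.inr (Or.inr (Or.inr (Or.inl (mem_R.2 ⟨hx, hx1, h2, h3, h1⟩)))))
      · exfalso
        linarith
    · rcases h.inner_long hx hx1 h.hr h.lr h.rr with h3 | h3 | ⟨h3, -⟩
      · exact Or.inr (Or.inr (Or.inr (Or.inr (Or.inr (mem_R.2 ⟨hx, hx1, h3, h1, h2⟩)))))
      · exfalso
        linarith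
      · exfalso
        linarith
    · exfalso
      rcases h.inner_long hx hx1 h.hr h.lr h.rr with h3 | h3 | ⟨h3, -⟩ <;> linarith
  · exact Or.inl h1

/-- The involution. -/
theorem Tri.conj (h : Tri Φ ℓ c p q r) {x : E} (hx : x ∈ R Φ ℓ c p q r) : q + r - x ∈ R Φ ℓ c p q r := by
  have hc := h.pos
  obtain ⟨h1, h2, h3, h4, h5⟩ := mem_R.1 hx
  have e1 : co q x = 1 := by
    unfold co
    rw [h4, h.qq]
    field_simp
  have h6 := h.lev.refl q h.hq x h1
  rw [e1, one_smul] at h6
  have e2 : co r (x - q) = 1 := by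
    unfold co
    rw [inner_sub_left, h5, h.qr, h.rr, sub_zero]
    field_simp
  have h7 := h.lev.refl r h.hr _ h6
  rw [e2, one_smul] at h7
  have h8 := h.lev.toRS.neg_mem h7
  have h9 : -(x - q - r) = q + r - x := by abel
  rw [h9] at h8
  refine mem_R.2 ⟨h8, ?_, ?_, ?_, ?_⟩
  · rw [map_sub, map_add, h.lq, h.lr, h2]
    norm_num
  · rw [inner_sub_left, inner_add_left, h3, h.rp, real_inner_comm, h.pq]
    norm_num
  · rw [inner_sub_left, inner_add_left, h4, h.qq, real_inner_comm, h.qr]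
    ring
  · rw [inner_sub_left, inner_add_left, h5, h.rr, h.qr]
    ring

/-- The only short root. -/
theorem Tri.short (h : Tri Φ ℓ c p q r) {x : E} (hx : x ∈ R Φ ℓ c p q r) (hxx : (inner ℝ x x : ℝ) = c) :
    x + x = q + r := by
  obtain ⟨h1, h2, h3, h4, h5⟩ := mem_R.1 hx
  have h6 : (inner ℝ (x + x - (q + r)) (x + x - (q + r)) : ℝ) = 0 := by
    simp only [inner_sub_left, inner_sub_right, inner_add_left, inner_add_right]
    rw [real_inner_comm x q, real_inner_comm x r, real_inner_comm q r, hxx, h4, h5, h.qq, h.rr, h.qr]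
    ring
  exact sub_eq_zero.1 (inner_self_eq_zero.1 h6)

/-- Elements of different sets. -/
theorem Tri.inner_RR (h : Tri Φ ℓ c p q r) {x y : E} (hx : x ∈ R Φ ℓ c p q r) (hy : y ∈ R Φ ℓ c q r p)
    (hyy : (inner ℝ y y : ℝ) = 2 * c) : (inner ℝ x y : ℝ) = 0 ∨ (inner ℝ x y : ℝ) = c := by
  have hc := h.pos
  have hx' := h.conj hx
  obtain ⟨h1, h2, h3, h4, h5⟩ := mem_R.1 hx
  obtain ⟨g1, g2, g3, g4, g5⟩ := mem_R.1 hy
  obtain ⟨f1, f2, -⟩ := mem_R.1 hx'
  have h6 := h.lev.nonneg f1 g1 f2 g2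
  rw [inner_sub_left, inner_add_left, real_inner_comm y q, real_inner_comm y r, g3, g4] at h6
  rcases h.inner_long h1 h2 g1 g2 hyy with h7 | h7 | ⟨h7, -⟩
  · exact Or.inl h7
  · exact Or.inr h7
  · linarith

theorem Tri.short_long (h : Tri Φ ℓ c p q r) {x y : E} (hx : x ∈ R Φ ℓ c p q r) (hxx : (inner ℝ x x : ℝ) = c)
    (hy : y ∈ R Φ ℓ c q r p) (hyy : (inner ℝ y y : ℝ) = 2 * c) : False := by
  have hc := h.pos
  have h1 := h.short hx hxx
  obtain ⟨g1, g2, g3, g4, g5⟩ := mem_R.1 hy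
  have h2 := congrArg (fun z => (inner ℝ z y : ℝ)) h1
  simp only [inner_add_left] at h2
  rw [real_inner_comm y q, real_inner_comm y r, g3, g4] at h2
  rcases h.inner_RR hx hy hyy with h3 | h3 <;> linarith

/-- The third root. -/
theorem Tri.third (h : Tri Φ ℓ c p q r) {x y : E} (hx : x ∈ R Φ ℓ c p q r) (hy : y ∈ R Φ ℓ c q r p)
    (hxy : (inner ℝ x y : ℝ) = 0) : x + y - r ∈ R Φ ℓ c r p q := by
  have hc := h.pos
  obtain ⟨h1, h2, h3, h4, h5⟩ := mem_R.1 hx
  obtain ⟨g1, g2, g3, g4, g5⟩ := mem_R.1 hy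
  have hxr : x ≠ r := by
    intro h6
    rw [h6, real_inner_comm, h.qr] at h4
    linarith
  obtain ⟨h7, h8⟩ := h.lev.sub h1 h.hr h2 h.lr (by rw [h5]; exact hc) hxr
  have h9 : (inner ℝ (x - r) y : ℝ) < 0 := by
    rw [inner_sub_left, hxy, real_inner_comm, g4]
    linarith
  have h10 : x - r ≠ -y := by
    intro h11
    rw [h11, map_neg, g2] at h8
    norm_num at h8
  have h11 := h.lev.toRS.add_mem h7 g1 h9 h10
  have h12 : x - r + y = x + y - r := by abel
  rw [h12] at h11
  refine mem_R.2 ⟨h11, ?_, ?_, ?_, ?_⟩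
  · rw [map_sub, map_add, h2, g2, h.lr]
    norm_num
  · rw [inner_sub_left, inner_add_left, h5, g4, h.rr]
    ring
  · rw [inner_sub_left, inner_add_left, h3, g5, h.rp]
    ring
  · rw [inner_sub_left, inner_add_left, h4, g3, real_inner_comm, h.qr]
    ring

theorem Tri.third' (h : Tri Φ ℓ c p q r) {x y : E} (hx : x ∈ R Φ ℓ c p q r) (hy : y ∈ R Φ ℓ c q r p)
    (hxy : (inner ℝ x y : ℝ) = c) : x - y + p ∈ R Φ ℓ c r p q := by
  obtain ⟨g1, g2, g3, g4, g5⟩ := mem_R.1 hy
  have h1 := h.third (h.conj hx) hy (by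
    rw [inner_sub_left, inner_add_left, real_inner_comm y q, real_inner_comm y r, g3, g4, hxy]
    ring)
  have h2 := (h.rot.rot).conj h1
  have h3 : p + q - (q + r - x + y - r) = x - y + p := by abel
  rwa [h3] at h2

/-- The map from one set to the other. -/
theorem Tri.card_le (h : Tri Φ ℓ c p q r) {y : E} (hy : y ∈ R Φ ℓ c q r p) (hyy : (inner ℝ y y : ℝ) = 2 * c) :
    (R Φ ℓ c p q r).card ≤ (R Φ ℓ c r p q).card := by
  classical
  have hc := h.pos
  refine Finset.card_le_card_of_injOn (fun x => if (inner ℝ x y : ℝ) = 0 then x + y - r else x - y + p) ?_ ?_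
  · intro x hx
    have hx' : x ∈ R Φ ℓ c p q r := hx
    show (if (inner ℝ x y : ℝ) = 0 then x + y - r else x - y + p) ∈ (R Φ ℓ c r p q : Set E)
    rcases h.inner_RR hx' hy hyy with h1 | h1
    · rw [if_pos h1]
      exact h.third hx' hy h1
    · rw [if_neg (by rw [h1]; exact hc.ne')]
      exact h.third' hx' hy h1
  · obtain ⟨g1, g2, g3, g4, g5⟩ := mem_R.1 hy
    have aux : ∀ x x' : E, (inner ℝ x y : ℝ) = 0 → (inner ℝ x' y : ℝ) = c → x + y - r ≠ x' - y + p := by
      intro x x' h1 h2 h3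
      have h4 := congrArg (fun z => (inner ℝ z y : ℝ)) h3
      simp only [inner_add_left, inner_sub_left] at h4
      rw [real_inner_comm y r, real_inner_comm y p, g4, g5, hyy, h1, h2] at h4
      linarith
    intro x hx x' hx' he
    have hx2 : x ∈ R Φ ℓ c p q r := hx
    have hx2' : x' ∈ R Φ ℓ c p q r := hx'
    have he' : (if (inner ℝ x y : ℝ) = 0 then x + y - r else x - y + p) =
      (if (inner ℝ x' y : ℝ) = 0 then x' + y - r else x' - y + p) := he
    rcases h.inner_RR hx2 hy hyy with h1 | h1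
    · rw [if_pos h1] at he'
      rcases h.inner_RR hx2' hy hyy with h2 | h2
      · rw [if_pos h2] at he'
        have h3 : x + (y - r) = x' + (y - r) := by rw [← add_sub_assoc, ← add_sub_assoc, he']
        exact add_right_cancel h3
      · rw [if_neg (by rw [h2]; exact hc.ne')] at he'
        exact absurd he' (aux x x' h1 h2)
    · rw [if_neg (by rw [h1]; exact hc.ne')] at he'
      rcases h.inner_RR hx2' hy hyy with h2 | h2
      · rw [if_pos h2] at he'
        exact absurd he'.symm (aux x' x h2 h1)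
      · rw [if_neg (by rw [h2]; exact hc.ne')] at he'
        have h3 : x - y = x' - y := add_right_cancel he'
        exact sub_left_injective h3

/-- A part of the roots of level one which is orthogonal to the rest. -/
theorem Tri.conn (h : Tri Φ ℓ c p q r) (P : E → Prop) (h1 : ∃ a ∈ Φ, ℓ a = 1 ∧ P a)
    (h2 : ∀ a ∈ Φ, ℓ a = 1 → P a → ∀ b ∈ Φ, ℓ b = 1 → ¬ P b → (inner ℝ a b : ℝ) = 0) :
    ∀ b ∈ Φ, ℓ b = 1 → P b := by
  classical
  by_contra! hcon
  obtain ⟨b0, hb0, hb01, hb0P⟩ := hcon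
  obtain ⟨a0, ha0, ha01, ha0P⟩ := h1
  let S : Finset E := Φ.filter fun x => ∀ b ∈ Φ, ℓ b = 1 → ¬ P b → (inner ℝ x b : ℝ) = 0
  have hS : S = Φ := by
    refine h.lev.irr S (Finset.filter_subset _ _) ⟨a0, Finset.mem_filter.2 ⟨ha0, h2 a0 ha0 ha01 ha0P⟩⟩ ?_
    intro a ha x hx hxS
    obtain ⟨haΦ, haS⟩ := Finset.mem_filter.1 ha
    have h3 : ∃ b ∈ Φ, ℓ b = 1 ∧ ¬ P b ∧ (inner ℝ x b : ℝ) ≠ 0 := by
      by_contra! h4
      exact hxS (Finset.mem_filter.2 ⟨hx, h4⟩)
    obtain ⟨b, hb, hb1, hbP, hxb⟩ := h3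
    -- the case of positive level
    have pos : ∀ x ∈ Φ, ℓ x = 1 → (inner ℝ x b : ℝ) ≠ 0 → (inner ℝ a x : ℝ) = 0 := by
      intro x hx hx1 hxb
      apply haS x hx hx1
      intro hP
      exact hxb (h2 x hx hx1 hP b hb hb1 hbP)
    -- the case of level zero
    have zero : ∀ x ∈ Φ, ℓ x = 0 → 0 < (inner ℝ x b : ℝ) → (inner ℝ a x : ℝ) = 0 := by
      intro x hx hx0 hxb
      have h4 : b ≠ x := by
        intro h5
        rw [h5, hx0] at hb1
        norm_num at hb1
      have h5 := h.lev.toRS.sub_mem hb hx (by rw [real_inner_comm]; exact hxb) h4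
      have h6 : ℓ (b - x) = 1 := by rw [map_sub, hb1, hx0, sub_zero]
      have h7 : ¬ P (b - x) := by
        intro h8
        have h9 := h2 _ h5 h6 h8 b hb hb1 hbP
        -- the difference is a root
        have h10 : co b x = 2 := by
          have h11 := co_mul_self (x := x) (h.lev.toRS.inner_pos hb)
          rw [inner_sub_left] at h9
          have h12 : (inner ℝ x b : ℝ) = inner ℝ b b := by linarith
          have h13 : (co b x - 2) * inner ℝ b b = 0 := by
            rw [sub_mul, h11, h12]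
            ring
          rcases mul_eq_zero.1 h13 with h14 | h14
          · linarith
          · exact absurd h14 (h.lev.toRS.inner_pos hb).ne'
        have h11 := h.lev.refl b hb x hx
        rw [h10] at h11
        have h12 : ((2 : ℝ)) • b = ((2 : ℤ) : ℝ) • b := by norm_num
        have h13 := h.lev.lev _ h11
        rw [map_sub, h12, lev_smul, hb1, hx0] at h13
        norm_num at h13
      have h8 := haS _ h5 h6 h7
      have h9 := haS b hb hb1 hbP
      rw [inner_sub_right, h9] at h8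
      linarith
    rcases h.lev.lev x hx with h4 | h4 | h4
    · rcases lt_or_gt_of_ne hxb with h5 | h5
      · have h6 := zero (-x) (h.lev.toRS.neg_mem hx) (by rw [map_neg, h4, neg_zero])
          (by rw [inner_neg_left]; linarith)
        rw [inner_neg_right] at h6
        linarith
      · exact zero x hx h4 h5
    · exact pos x hx h4 hxb
    · have h6 := pos (-x) (h.lev.toRS.neg_mem hx) (by rw [map_neg, h4, neg_neg])
        (by rw [inner_neg_left]; exact neg_ne_zero.2 hxb)
      rw [inner_neg_right] at h6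
      linarith
  have h3 : b0 ∈ S := by rw [hS]; exact hb0
  have h4 := (Finset.mem_filter.1 h3).2 b0 hb0 hb01 hb0P
  exact (h.lev.toRS.inner_pos hb0).ne' h4

open Classical in
theorem Tri.card_eq (h : Tri Φ ℓ c p q r) : (Φ.filter fun x => ℓ x = 1).card =
    3 + (R Φ ℓ c p q r).card + (R Φ ℓ c q r p).card + (R Φ ℓ c r p q).card := by
  have hc := h.pos
  have hpq : p ≠ q := by
    intro h1
    have := h.pq
    rw [h1, h.qq] at this
    linarith
  have hqr : q ≠ r := by
    intro h1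
    have := h.qr
    rw [h1, h.rr] at this
    linarith
  have hpr : p ≠ r := by
    intro h1
    have := h.rp
    rw [h1, h.rr] at this
    linarith
  have e : (Φ.filter fun x => ℓ x = 1) =
      (({p, q, r} ∪ R Φ ℓ c p q r) ∪ R Φ ℓ c q r p) ∪ R Φ ℓ c r p q := by
    ext x
    simp only [Finset.mem_union, Finset.mem_insert, Finset.mem_singleton, Finset.mem_filter]
    constructor
    · rintro ⟨hx, hx1⟩
      rcases h.cases hx hx1 with h1 | h1 | h1 | h1 | h1 | h1
      · exact Or.inl (Or.inl (Or.inl (Or.inl h1)))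
      · exact Or.inl (Or.inl (Or.inl (Or.inr (Or.inl h1))))
      · exact Or.inl (Or.inl (Or.inl (Or.inr (Or.inr h1))))
      · exact Or.inl (Or.inl (Or.inr h1))
      · exact Or.inl (Or.inr h1)
      · exact Or.inr h1
    · rintro (((h1 | h1) | h1) | h1)
      · rcases h1 with rfl | rfl | rfl
        · exact ⟨h.hp, h.lp⟩
        · exact ⟨h.hq, h.lq⟩
        · exact ⟨h.hr, h.lr⟩
      · exact ⟨(mem_R.1 h1).1, (mem_R.1 h1).2.1⟩
      · exact ⟨(mem_R.1 h1).1, (mem_R.1 h1).2.1⟩
      · exact ⟨(mem_R.1 h1).1, (mem_R.1 h1).2.1⟩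
  have hqp : (inner ℝ q p : ℝ) = 0 := by rw [real_inner_comm]; exact h.pq
  have hrq : (inner ℝ r q : ℝ) = 0 := by rw [real_inner_comm]; exact h.qr
  have hpr' : (inner ℝ p r : ℝ) = 0 := by rw [real_inner_comm]; exact h.rp
  rw [e, Finset.card_union_of_disjoint, Finset.card_union_of_disjoint, Finset.card_union_of_disjoint,
    Finset.card_eq_three.2 ⟨p, q, r, hpq, hpr, hqr, rfl⟩]
  · rw [Finset.disjoint_left]
    intro x hx hx'
    obtain ⟨-, -, h3, h4, h5⟩ := mem_R.1 hx'
    simp only [Finset.mem_insert, Finset.mem_singleton] at hx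
    rcases hx with rfl | rfl | rfl
    · rw [h.pp] at h3
      linarith
    · rw [h.qq] at h4
      linarith
    · rw [h.rr] at h5
      linarith
  · rw [Finset.disjoint_left]
    intro x hx hx'
    obtain ⟨-, -, h3, h4, h5⟩ := mem_R.1 hx'
    simp only [Finset.mem_union, Finset.mem_insert, Finset.mem_singleton] at hx
    rcases hx with (rfl | rfl | rfl) | hx
    · rw [h.pp] at h5
      linarith
    · rw [h.qq] at h3
      linarith
    · rw [h.rr] at h4
      linarith
    · obtain ⟨-, -, g3, g4, g5⟩ := mem_R.1 hx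
      linarith
  · rw [Finset.disjoint_left]
    intro x hx hx'
    obtain ⟨-, -, h3, h4, h5⟩ := mem_R.1 hx'
    simp only [Finset.mem_union, Finset.mem_insert, Finset.mem_singleton] at hx
    rcases hx with ((rfl | rfl | rfl) | hx) | hx
    · rw [h.pp] at h4
      linarith
    · rw [h.qq] at h5
      linarith
    · rw [h.rr] at h3
      linarith
    · obtain ⟨-, -, g3, g4, g5⟩ := mem_R.1 hx
      linarith
    · obtain ⟨-, -, g3, g4, g5⟩ := mem_R.1 hx
      linarith

end CY
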