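import Pool.Agent.Helper81.CY.Cfg

/-!
Project CY (MP_b8862a_ag), block CY3: three orthogonal long roots of level one.
-/

set_option linter.unusedSectionVars false

open Module PF PG

namespace CY

variable {E : Type*} [NormedAddCommGroup E] [InnerProductSpace ℝ E] {Φ X : Finset E} {ℓ : E →+ ℝ} {lam : E} {c : ℝ}
  {p q r : E}

/-- Three orthogonal long roots `p, q, r` of level one, with the sum `2 λ`. -/
structure Tri (Φ : Finset E) (ℓ : E →+ ℝ) (c : ℝ) (p q r : E) : Prop where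
  lev : Lev Φ ℓ
  pos : 0 < c
  norm : ∀ x ∈ Φ, (inner ℝ x x : ℝ) = 2 * c ∨ (inner ℝ x x : ℝ) = c
  sum : ∀ x ∈ Φ, ℓ x = 1 → (inner ℝ x p + inner ℝ x q + inner ℝ x r : ℝ) = 2 * c
  hp : p ∈ Φ
  hq : q ∈ Φ
  hr : r ∈ Φ
  lp : ℓ p = 1
  lq : ℓ q = 1
  lr : ℓ r = 1
  pp : (inner ℝ p p : ℝ) = 2 * c
  qq : (inner ℝ q q : ℝ) = 2 * c
  rr : (inner ℝ r r : ℝ) = 2 * c
  pq : (inner ℝ p q : ℝ) = 0
  qr : (inner ℝ q r : ℝ) = 0
  rp : (inner ℝ r p : ℝ) = 0

theorem Tri.rot (h : Tri Φ ℓ c p q r) : Tri Φ ℓ c q r p where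
  lev := h.lev
  pos := h.pos
  norm := h.norm
  sum x hx hx1 := by
    have := h.sum x hx hx1
    linarith
  hp := h.hq
  hq := h.hr
  hr := h.hp
  lp := h.lq
  lq := h.lr
  lr := h.lp
  pp := h.qq
  qq := h.rr
  rr := h.pp
  pq := h.qr
  qr := h.rp
  rp := h.pq

theorem Tri.swap (h : Tri Φ ℓ c p q r) : Tri Φ ℓ c q p r where
  lev := h.lev
  pos := h.pos
  norm := h.norm
  sum x hx hx1 := by
    have := h.sum x hx hx1
    linarith
  hp := h.hq
  hq := h.hp
  hr := h.hr
  lp := h.lq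
  lq := h.lp
  lr := h.lr
  pp := h.qq
  qq := h.pp
  rr := h.rr
  pq := by rw [real_inner_comm]; exact h.pq
  qr := by rw [real_inner_comm]; exact h.rp
  rp := by rw [real_inner_comm]; exact h.qr

/-- Existence of a root of level one with the pairing `1` with `λ`. -/
theorem Cfg.exists_long1 (h : Cfg Φ X ℓ lam) (hc : 0 < c) (hcc : ∀ b ∈ Φ, ℓ b = 1 → (inner ℝ lam b : ℝ) = c)
    (h3 : ∀ b ∈ Φ, ℓ b = 1 → 3 * (inner ℝ b b : ℝ) ≠ 2 * c) :
    ∃ b ∈ Φ, ℓ b = 1 ∧ (inner ℝ b b : ℝ) = 2 * c := by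
  by_contra! hcon
  obtain ⟨b, hb, hb1⟩ := h.lev.ex
  have hn : ∀ x ∈ Φ, ℓ x = 1 → (inner ℝ x x : ℝ) = c := by
    intro x hx hx1
    rcases h.norms hc hcc h3 hx with h1 | h1
    · exact absurd h1 (hcon x hx hx1)
    · exact h1
  obtain ⟨m, hm, hmb, hmX⟩ := h.exists_m hc hb hb1 (hcc b hb hb1)
  rw [hn b hb hb1] at hmb
  have hm2 : m = 2 := by
    have h1 : ((m : ℝ) - 2) * c = 0 := by linarith
    rcases mul_eq_zero.1 h1 with h2 | h2
    · have h4 : (m : ℝ) = 2 := by linarith
      exact_mod_cast h4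
    · linarith
  subst hm2
  obtain ⟨b', hb', hb1', he⟩ := h.half _ (h.sat.neg _ hmX) (by
    have h5 : ((2 : ℕ) : ℝ) • b = ((2 : ℤ) : ℝ) • b := by norm_num
    rw [h5, map_neg, map_sub, lev_smul, hb1, h.lam_lev]
    norm_num)
  have h5 : lam + lam = (2 : ℝ) • b + b' := by
    have h6 : (2 : ℝ) • b + b' = -(lam - ((2 : ℕ) : ℝ) • b) + lam + b' := by
      push_cast
      abel
    rw [h6, he]
    abel
  have h6 := congrArg (fun z => (inner ℝ z b : ℝ)) h5
  have h7 := congrArg (fun z => (inner ℝ z b' : ℝ)) h5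
  simp only [inner_add_left, inner_smul_left, conj_trivial] at h6 h7
  rw [hcc b hb hb1, hn b hb hb1] at h6
  rw [hcc b' hb' hb1', hn b' hb' hb1', real_inner_comm] at h7
  linarith

/-- Existence of the three roots. -/
theorem Cfg.exists_tri (h : Cfg Φ X ℓ lam) (hc : 0 < c) (hcc : ∀ b ∈ Φ, ℓ b = 1 → (inner ℝ lam b : ℝ) = c)
    (h3 : ∀ b ∈ Φ, ℓ b = 1 → 3 * (inner ℝ b b : ℝ) ≠ 2 * c) : ∃ p q r, Tri Φ ℓ c p q r := by
  obtain ⟨p, hp, lp, pp⟩ := h.exists_long1 hc hcc h3
  -- the final step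
  have key : ∀ q r : E, q ∈ Φ → r ∈ Φ → ℓ q = 1 → ℓ r = 1 → (inner ℝ q q : ℝ) = 2 * c →
      (inner ℝ r r : ℝ) = 2 * c → lam + lam = p + q + r → Tri Φ ℓ c p q r := by
    intro q r hq hr lq lr qq rr hs
    have hs' : ∀ x ∈ Φ, ℓ x = 1 → (inner ℝ x p + inner ℝ x q + inner ℝ x r : ℝ) = 2 * c := by
      intro x hx hx1
      have h6 := congrArg (fun z => (inner ℝ x z : ℝ)) hs
      simp only [inner_add_right] at h6
      rw [← h6, real_inner_comm, hcc x hx hx1]
      ring
    have h1 := hs' p hp lp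
    have h2 := hs' q hq lq
    rw [pp] at h1
    rw [qq] at h2
    have h4 := h.lev.nonneg hp hq lp lq
    have h5 := h.lev.nonneg hp hr lp lr
    have h6 := h.lev.nonneg hq hp lq lp
    have h7 := h.lev.nonneg hq hr lq lr
    exact ⟨h.lev, hc, fun x hx => h.norms hc hcc h3 hx, hs', hp, hq, hr, lp, lq, lr, pp, qq, rr, by linarith,
      by linarith, by rw [real_inner_comm]; linarith⟩
  obtain ⟨q, hq, lq, hqX⟩ := h.next p hp lp
  obtain ⟨r, hr, lr, he⟩ := h.half _ (h.sat.neg _ hqX) (by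
    rw [map_neg, map_sub, map_sub, lp, lq, h.lam_lev]
    norm_num)
  have hs : lam + lam = p + q + r := by
    have h6 : p + q + r = -(lam - p - q) + lam + r := by abel
    rw [h6, he]
    abel
  have hs' : ∀ x ∈ Φ, ℓ x = 1 → (inner ℝ x p + inner ℝ x q + inner ℝ x r : ℝ) = 2 * c := by
    intro x hx hx1
    have h6 := congrArg (fun z => (inner ℝ x z : ℝ)) hs
    simp only [inner_add_right] at h6
    rw [← h6, real_inner_comm, hcc x hx hx1]
    ring
  have h1 := hs' p hp lp
  have h2 := hs' q hq lq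
  have h2' := hs' r hr lr
  rw [pp] at h1
  have h4 := h.lev.nonneg hp hq lp lq
  have h5 := h.lev.nonneg hp hr lp lr
  have h6 : (inner ℝ q p : ℝ) = 0 := by rw [real_inner_comm]; linarith
  have h7 : (inner ℝ r p : ℝ) = 0 := by rw [real_inner_comm]; linarith
  have h8 := h.lev.nonneg hq hr lq lr
  have h9 : (inner ℝ r q : ℝ) = inner ℝ q r := real_inner_comm _ _
  rw [h9] at h2'
  rcases h.norms hc hcc h3 hq with qq | qq
  · refine ⟨p, q, r, key q r hq hr lq lr qq ?_ hs⟩
    linarith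
  · -- the short case
    have h10 : (inner ℝ q r : ℝ) = c := by linarith
    have h11 : (inner ℝ r r : ℝ) = c := by linarith
    have h12 : (inner ℝ (r - q) (r - q) : ℝ) = 0 := by
      rw [inner_sub_left, inner_sub_right, inner_sub_right, h9, qq, h10, h11]
      ring
    have h13 : r = q := sub_eq_zero.1 (inner_self_eq_zero.1 h12)
    subst h13
    -- a long root which is not orthogonal to `r`
    have hlong : ∃ a ∈ Φ, (inner ℝ a a : ℝ) = 2 * c ∧ (0 : ℝ) < inner ℝ a r := by
      obtain ⟨a, ha, haa, har⟩ := h.exists_long hc hp pp hr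
      rcases lt_or_gt_of_ne har with h14 | h14
      · exact ⟨-a, h.lev.toRS.neg_mem ha, by rw [inner_neg_neg, haa], by rw [inner_neg_left]; linarith⟩
      · exact ⟨a, ha, haa, h14⟩
    obtain ⟨a, ha, haa, har⟩ := hlong
    obtain ⟨k, hk⟩ := h.lev.int a ha r hr
    have h14 := co_mul_self (x := r) (h.lev.toRS.inner_pos ha)
    have h15 := co_mul_self (x := a) (h.lev.toRS.inner_pos hr)
    have h16 := h.lev.abs_co_root_le hr ha
    rw [hk, haa, real_inner_comm] at h14
    rw [qq] at h15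
    have h17 : (k : ℝ) * c = inner ℝ a r := by linarith
    have h18 : (0 : ℝ) < k := by
      by_contra h19
      push Not at h19
      have := mul_nonpos_of_nonpos_of_nonneg h19 hc.le
      linarith
    have h19 : (1 : ℝ) ≤ k := by
      have : 0 < k := by exact_mod_cast h18
      exact_mod_cast this
    have h20 : co r a = 2 * k := by
      have h21 : (co r a - 2 * k) * c = 0 := by linarith
      rcases mul_eq_zero.1 h21 with h22 | h22
      · linarith
      · linarith
    have h21 : (k : ℝ) = 1 := by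
      have := (abs_le.1 h16).2
      linarith
    rw [h21, mul_one] at h20
    rw [h21, one_mul] at h17
    have h22 := h.lev.refl r hr a ha
    rw [h20] at h22
    have h23 : ((2 : ℝ)) • r = ((2 : ℤ) : ℝ) • r := by norm_num
    have h24 := h.lev.lev _ h22
    rw [map_sub, h23, lev_smul, lr] at h24
    have la : ℓ a = 1 := by
      rcases h.lev.lev a ha with h25 | h25 | h25
      · rw [h25] at h24
        norm_num at h24
      · exact h25
      · rw [h25] at h24
        norm_num at h24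
    refine ⟨p, a, (2 : ℝ) • r - a, key a _ ha ?_ la ?_ haa ?_ ?_⟩
    · have h26 := h.lev.toRS.neg_mem h22
      rwa [neg_sub] at h26
    · rw [map_sub, h23, lev_smul, lr, la]
      norm_num
    · rw [inner_sub_left, inner_sub_right, inner_sub_right, inner_smul_left, inner_smul_right, inner_smul_left,
        inner_smul_right, haa, qq, real_inner_comm a r, ← h17]
      simp only [conj_trivial]
      ring
    · rw [hs, two_smul]
      abel

end CY
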